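import Pool.Agent.H936R3.SH.One

/-!
Group languages of height at most `h + 1` are Boolean combinations of quotients of starred
languages `K*`, `K` of height at most `h`; one `K` suffices for simple nonabelian groups.
-/

set_option autoImplicit false

namespace Pool.Agent.H936R3.SH

open Pool.Agent.H936R2.SH

variable {α : Type}

/-- the words over `α` whose value lies in `T` -/
def W {G : Type} [Group G] (φ : α → G) (T : Set G) : Set (List α) :=
  {w | (w.map φ).prod ∈ T}

/-- Boolean combinations of the two-sided quotients `u⁻¹K*v⁻¹`, `K ∈ C`. -/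
inductive Quo (C : Set (Set (List α))) : Set (List α) → Prop
  | empty : Quo C ∅
  | quot {K : Set (List α)} (hK : K ∈ C) (u v : List α) : Quo C {x | u ++ x ++ v ∈ st K}
  | union {X Y : Set (List α)} : Quo C X → Quo C Y → Quo C (X ∪ Y)
  | compl {X : Set (List α)} : Quo C X → Quo C Xᶜ

theorem Quo.height {h : ℕ} {C : Set (Set (List α))} (hC : ∀ K ∈ C, HS h K) {X : Set (List α)}
    (hX : Quo C X) : HS (h + 1) X := by
  induction hX with
  | empty => exact .empty _
  | quot hK u v =>
    have := HS.rq (HS.lq (hC _ hK).star u) v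
    convert this using 1
    ext x
    simp [rq, lq]
  | union _ _ h1 h2 => exact h1.union h2
  | compl _ h1 => exact h1.compl

theorem Quo.mono {C D : Set (Set (List α))} (hCD : C ⊆ D) {X : Set (List α)}
    (hX : Quo C X) : Quo D X := by
  induction hX with
  | empty => exact .empty
  | quot hK u v => exact .quot (hCD hK) u v
  | union _ _ h1 h2 => exact h1.union h2
  | compl _ h1 => exact h1.compl

/-- The quotients of starred languages determine all languages saturated by their congruences. -/
theorem quo_of_joint {h : ℕ} (KK : List (Set (List α))) (hK : ∀ K ∈ KK, HS h K)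
    (Z : Set (List α)) (hZ : ∀ w w' : List α, (∀ K ∈ KK, Syn (st K) w w') → (w ∈ Z ↔ w' ∈ Z)) :
    Quo {K | K ∈ KK} Z := by
  have := finite_joint KK hK
  refine saturated (Quo {K | K ∈ KK}) (fun _ _ => .union) (fun _ => .compl) .empty
    (fun w : List α => ((FreeMonoid.ofList w : FreeMonoid α) : (joint KK).Quotient)) ?_ _ ?_
  · intro a b hab
    have h1 : ¬ joint KK (FreeMonoid.ofList a) (FreeMonoid.ofList b) := fun h2 =>
      hab ((joint KK).eq.2 h2)
    rw [joint_rel] at h1
    push Not at h1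
    obtain ⟨K, hKK, h2⟩ := h1
    unfold Syn at h2
    push Not at h2
    obtain ⟨u, v, h3⟩ := h2
    have h4 : Quo {K | K ∈ KK} {x : List α | u ++ x ++ v ∈ st K} := .quot hKK u v
    have h5 : ∀ x y : List α, ((FreeMonoid.ofList x : FreeMonoid α) : (joint KK).Quotient) =
        (FreeMonoid.ofList y : FreeMonoid α) → (u ++ x ++ v ∈ st K ↔ u ++ y ++ v ∈ st K) := by
      intro x y hxy
      exact (joint_rel KK _ _).1 ((joint KK).eq.1 hxy) K hKK u v
    rcases h3 with ⟨h6, h7⟩ | ⟨h6, h7⟩
    · exact ⟨_, h4, h6, h7, h5⟩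
    · exact ⟨_, h4.compl, h6, fun h => h h7, fun x y hxy => not_congr (h5 x y hxy)⟩
  · intro x y hxy
    exact hZ x y fun K hKK => (joint_rel KK _ _).1 ((joint KK).eq.1 hxy) K hKK

/-- The main lemma: the starred languages occurring in an expression of a group language
already recognise the language. -/
theorem joint_syn {G : Type} [Group G] [Finite G] (φ : α → G) {h : ℕ} {T : Set G}
    (hL : HS (h + 1) (W φ T)) :
    ∃ KK : List (Set (List α)), (∀ K ∈ KK, HS h K) ∧
      ∀ w w' : FreeMonoid α, joint KK w w' →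
        Syn (W φ T) (FreeMonoid.toList w) (FreeMonoid.toList w') := by
  obtain ⟨KK, hK, hp⟩ := pump hL h rfl
  refine ⟨KK, hK, ?_⟩
  have := finite_joint KK hK
  intro w w' hw
  -- a word over 1 and a word over the quotient
  set s := (ev φ w)⁻¹ * ev φ w' with hs
  set v := w ^ (orderOf (ev φ w) - 1) with hv
  have h0 : ev φ v = (ev φ w)⁻¹ := by
    rw [hv, map_pow]
    apply eq_inv_of_mul_eq_one_left
    rw [← pow_succ, Nat.sub_add_cancel (orderOf_pos _), pow_orderOf_eq_one]
  have h1 : ev φ (v * w) = 1 := by rw [map_mul, h0, inv_mul_cancel]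
  have h2 : ev φ (v * w') = s := by rw [map_mul, h0]
  obtain ⟨N, hN, hi⟩ := exists_idem_pow (((v * w : FreeMonoid α) : (joint KK).Quotient))
  obtain ⟨N, rfl⟩ : ∃ k, N = k + 1 := ⟨N - 1, by omega⟩
  set t : FreeMonoid α := (v * w) ^ N * (v * w') with ht
  have e1 : ((v * w' : FreeMonoid α) : (joint KK).Quotient) = ((v * w : FreeMonoid α)) :=
    ((joint KK).eq.2 ((joint KK).mul ((joint KK).refl v) hw)).symm
  have e2 : (t : (joint KK).Quotient) = ((v * w : FreeMonoid α) : (joint KK).Quotient) ^ (N + 1) := by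
    have e0 : (t : (joint KK).Quotient) =
        ((v * w : FreeMonoid α) : (joint KK).Quotient) ^ N * ((v * w' : FreeMonoid α)) := by
      rw [ht, Con.coe_mul]
      congr 1
    rw [e0, e1, pow_succ]
  have e3 : joint KK t (t * t) := by
    have e4 : ((t * t : FreeMonoid α) : (joint KK).Quotient) = t := by
      rw [Con.coe_mul, e2, hi]
    exact (joint KK).eq.1 e4.symm
  have h3 : ev φ t = s := by rw [ht, map_mul, map_pow, h1, one_pow, one_mul, h2]
  obtain ⟨B, hB⟩ := hp (FreeMonoid.toList t) (fun K hK' => by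
    have := (joint_rel KK _ _).1 e3 K hK'
    rwa [FreeMonoid.toList_mul] at this)
  have ho := orderOf_pos s
  intro x y
  have h4 := hB (B * orderOf s) (Nat.le_mul_of_pos_right _ ho) (x ++ FreeMonoid.toList w) y
  have h5 : s ^ (B * orderOf s) = 1 := by rw [mul_comm, pow_mul, pow_orderOf_eq_one, one_pow]
  have hW : ∀ n, (x ++ FreeMonoid.toList w) ++ pw (FreeMonoid.toList t) n ++ y ∈ W φ T ↔
      ev φ (FreeMonoid.ofList x) * ev φ w * s ^ n * ev φ (FreeMonoid.ofList y) ∈ T := by
    intro n
    rw [← h3, ← map_pow, ← map_mul, ← map_mul, ← map_mul, ev_apply]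
    simp only [FreeMonoid.toList_mul, FreeMonoid.toList_ofList, toList_pow']
    exact Iff.rfl
  rw [hW, hW, pow_succ, h5, one_mul, mul_one] at h4
  have h6 : ev φ (FreeMonoid.ofList x) * ev φ w * s = ev φ (FreeMonoid.ofList x) * ev φ w' := by
    rw [hs, mul_assoc, mul_inv_cancel_left]
  rw [h6, ← map_mul, ← map_mul, ← map_mul, ← map_mul, ev_apply, ev_apply] at h4
  simp only [FreeMonoid.toList_mul, FreeMonoid.toList_ofList] at h4
  exact h4

/-- Languages of finite groups: height at most `h + 1` means Boolean combination of quotients of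
starred languages of height at most `h`. -/
theorem group_iff {G : Type} [Group G] [Finite G] (φ : α → G) (h : ℕ) (T : Set G) :
    HS (h + 1) (W φ T) ↔ Quo {K | HS h K} (W φ T) := by
  constructor
  · intro hL
    obtain ⟨KK, hK, hJ⟩ := joint_syn φ hL
    refine (quo_of_joint KK hK (W φ T) ?_).mono fun K hK' => hK K hK'
    intro w w' hw
    have h1 := hJ (FreeMonoid.ofList w) (FreeMonoid.ofList w') ((joint_rel KK _ _).2 hw) [] []
    simpa using h1
  · exact Quo.height fun K hK => hK

/-- For simple groups the syntactic congruence of a nontrivial language is the kernel. -/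
theorem syn_le {G : Type} [Group G] [Finite G] [IsSimpleGroup G] (φ : α → G)
    (hφ : Function.Surjective (ev φ)) {T : Set G} (h0 : T.Nonempty) (h1 : T ≠ Set.univ) :
    synCon (W φ T) ≤ Con.ker (ev φ) := by
  by_contra hcon
  obtain ⟨g, hg⟩ := h0
  apply h1
  rw [Set.eq_univ_iff_forall]
  intro g'
  obtain ⟨x, y, h2, h3, h4⟩ := kerOf_eq_top (ev φ) hφ _ hcon (g⁻¹ * g')
  obtain ⟨u, hu⟩ := hφ g
  have h5 := h2 (FreeMonoid.toList u) []
  have h6 : ∀ z : FreeMonoid α, FreeMonoid.toList u ++ FreeMonoid.toList z ++ [] ∈ W φ T ↔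
      g * ev φ z ∈ T := by
    intro z
    rw [← hu, ← map_mul, ev_apply, FreeMonoid.toList_mul, List.append_nil]
    exact Iff.rfl
  rw [h6, h6, h3, h4, mul_one, mul_inv_cancel_left] at h5
  exact h5.1 hg

theorem simple_key {G : Type} [Group G] [Finite G] [IsSimpleGroup G]
    (hG : ¬ ∀ a b : G, a * b = b * a) (φ : α → G) (hφ : Function.Surjective (ev φ)) {h : ℕ}
    {T : Set G} (h0 : T.Nonempty) (h1 : T ≠ Set.univ) (hL : HS (h + 1) (W φ T)) :
    ∃ K : Set (List α), HS h K ∧ synCon (st K) ≤ Con.ker (ev φ) := by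
  obtain ⟨KK, hK, hJ⟩ := joint_syn φ hL
  have h2 : joint KK ≤ Con.ker (ev φ) := fun {x y} hxy =>
    syn_le φ hφ h0 h1 ((synCon_rel _ _ _).2 (hJ x y hxy))
  obtain ⟨K, hKK, h3⟩ := one_le hG φ hφ KK hK h2
  exact ⟨K, hK K hKK, h3⟩

theorem syn_val {G : Type} [Group G] (φ : α → G) {K : Set (List α)}
    (hK : synCon (st K) ≤ Con.ker (ev φ)) (w w' : List α) (hw : Syn (st K) w w') :
    (w.map φ).prod = (w'.map φ).prod := by
  have h1 := (Con.ker_rel _).1 (hK ((synCon_rel _ (FreeMonoid.ofList w)
    (FreeMonoid.ofList w')).2 hw))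
  rwa [ev_apply, ev_apply, FreeMonoid.toList_ofList, FreeMonoid.toList_ofList] at h1

/-- Simple nonabelian groups: one starred language is enough. -/
theorem simple_iff {G : Type} [Group G] [Finite G] [IsSimpleGroup G]
    (hG : ¬ ∀ a b : G, a * b = b * a) (φ : α → G) (hφ : Function.Surjective (ev φ)) (h : ℕ)
    {T : Set G} (h0 : T.Nonempty) (h1 : T ≠ Set.univ) :
    HS (h + 1) (W φ T) ↔ ∃ K : Set (List α), HS h K ∧ ∀ T' : Set G, Quo {K} (W φ T') := by
  constructor
  · intro hL
    obtain ⟨K, hK, hle⟩ := simple_key hG φ hφ h0 h1 hL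
    refine ⟨K, hK, fun T' => ?_⟩
    have h2 := quo_of_joint (h := h) [K] (by simpa using hK) (W φ T') (by
      intro w w' hw
      have h3 := syn_val φ hle w w' (hw K List.mem_cons_self)
      show (w.map φ).prod ∈ T' ↔ (w'.map φ).prod ∈ T'
      rw [h3])
    refine h2.mono fun X hX => ?_
    simpa using hX
  · rintro ⟨K, hK, h2⟩
    exact (h2 T).height (by simpa using hK)

/-- Restriction to sub-alphabets. -/
theorem simple_sub {G : Type} [Group G] [Finite G] [IsSimpleGroup G]
    (hG : ¬ ∀ a b : G, a * b = b * a) (φ : α → G) (hφ : Function.Surjective (ev φ)) (h : ℕ)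
    {T : Set G} (h0 : T.Nonempty) (h1 : T ≠ Set.univ) (hL : HS (h + 1) (W φ T)) :
    ∃ K : Set (List α), HS h K ∧ ∀ (γ : Type) [Finite γ] (f : γ → α) (T' : Set G),
      OneStar h {w : List γ | w.map f ∈ K} (W (φ ∘ f) T') := by
  obtain ⟨K, hK, hle⟩ := simple_key hG φ hφ h0 h1 hL
  refine ⟨K, hK, fun γ _ f T' => ?_⟩
  have h2 : Quo {K} (W φ T') := by
    have h2 := quo_of_joint (h := h) [K] (by simpa using hK) (W φ T') (by
      intro w w' hw
      have h3 := syn_val φ hle w w' (hw K List.mem_cons_self)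
      show (w.map φ).prod ∈ T' ↔ (w'.map φ).prod ∈ T'
      rw [h3])
    refine h2.mono fun X hX => ?_
    simpa using hX
  have h3 : ∀ X : Set (List α), Quo {K} X →
      OneStar h {w : List γ | w.map f ∈ K} {w : List γ | w.map f ∈ X} := by
    intro X hX
    induction hX with
    | empty => exact .base (.empty h)
    | quot hK' u v =>
      rw [Set.mem_singleton_iff] at hK'
      subst hK'
      exact oneStar_quot hK f u v
    | union _ _ h1 h2 => exact h1.union h2
    | compl _ h1 => exact h1.compl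
  have h4 := h3 _ h2
  convert h4 using 1
  ext w
  show ((w.map (φ ∘ f)).prod ∈ T' ↔ ((w.map f).map φ).prod ∈ T')
  rw [List.map_map]

end Pool.Agent.H936R3.SH
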