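import Pool.Agent.H936R3.SH.Recog

/-!
If all languages of finite groups have height at most `h + 1`, then for each finite group one
starred language `K*`, `K` of height at most `h`, is enough.
-/

set_option autoImplicit false

namespace Pool.Agent.H936R3.SH

open Pool.Agent.H936R2.SH

variable {α : Type}

/-- Boolean combinations of languages of height at most `h` and languages `Y K* Z` with `Y`, `Z`
of height at most `h`, for one fixed `K`. -/
inductive OneStar (h : ℕ) (K : Set (List α)) : Set (List α) → Prop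
  | base {X : Set (List α)} : HS h X → OneStar h K X
  | prod {Y Z : Set (List α)} : HS h Y → HS h Z → OneStar h K (cat (cat Y (st K)) Z)
  | union {X Y : Set (List α)} : OneStar h K X → OneStar h K Y → OneStar h K (X ∪ Y)
  | compl {X : Set (List α)} : OneStar h K X → OneStar h K Xᶜ

theorem OneStar.height {h : ℕ} {K : Set (List α)} (hK : HS h K) {X : Set (List α)}
    (hX : OneStar h K X) : HS (h + 1) X := by
  induction hX with
  | base h1 => exact h1.succ
  | prod h1 h2 => exact (h1.succ.cat hK.star).cat h2.succ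
  | union _ _ h1 h2 => exact h1.union h2
  | compl _ h1 => exact h1.compl

theorem OneStar.iUnion {h : ℕ} {K : Set (List α)} {ι : Type*} [Finite ι]
    (f : ι → Set (List α)) (hf : ∀ i, OneStar h K (f i)) : OneStar h K (⋃ i, f i) := by
  classical
  have := Fintype.ofFinite ι
  have h1 : ∀ s : Finset ι, OneStar h K (⋃ i ∈ s, f i) := by
    intro s
    induction s using Finset.induction_on with
    | empty => simpa using OneStar.base (K := K) (HS.empty (α := α) h)
    | insert a s ha ih =>
      rw [Finset.set_biUnion_insert]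
      exact (hf a).union ih
  simpa using h1 Finset.univ

theorem OneStar.cond {h : ℕ} {K X : Set (List α)} (P : Prop) (hX : OneStar h K X) :
    OneStar h K {w | P ∧ w ∈ X} := by
  by_cases hP : P
  · simpa [hP] using hX
  · simpa [hP] using OneStar.base (K := K) (HS.empty (α := α) h)

theorem comap_st {β : Type} (X : Set (List α)) (f : β → α) :
    {w : List β | w.map f ∈ st X} = st {w : List β | w.map f ∈ X} := by
  ext w
  constructor
  · rintro ⟨l, hl, h⟩
    induction l generalizing w with
    | nil =>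
      have : w = [] := by simpa using h
      rw [this]; exact nil_st _
    | cons x l ih =>
      have hx : x ∈ X := hl x (by simp)
      have hl' : ∀ y ∈ l, y ∈ X := fun y hy => hl y (by simp [hy])
      have h : w.map f = x ++ l.flatten := by simpa using h
      obtain ⟨w₁, w₂, rfl, rfl, h3⟩ := List.map_eq_append_iff.1 h
      exact st_append (st_one hx) (ih w₂ hl' h3)
  · rintro ⟨l, hl, rfl⟩
    refine ⟨l.map (List.map f), ?_, by simp [List.map_flatten]⟩
    intro x hx
    obtain ⟨y, hy, rfl⟩ := List.mem_map.1 hx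
    exact hl y hy

theorem st_nil_union (X : Set (List α)) : st (X ∪ {[]}) = st X := by
  ext w
  constructor
  · rintro ⟨l, hl, rfl⟩
    induction l with
    | nil => exact nil_st _
    | cons x l ih =>
      have h1 := ih fun y hy => hl y (List.mem_cons_of_mem _ hy)
      rcases hl x List.mem_cons_self with h | h
      · rw [List.flatten_cons]; exact st_append (st_one h) h1
      · rw [Set.mem_singleton_iff] at h
        rw [h]; simpa using h1
  · rintro ⟨l, hl, rfl⟩
    exact ⟨l, fun x hx => Or.inl (hl x hx), rfl⟩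

/-- cutting a word of `X*` with the empty word added to `X` -/
theorem st_cut' {X : Set (List α)} (h0 : [] ∈ X) {u w : List α} : u ++ w ∈ st X ↔
    ∃ u₁ u₂ w₁ w₂, u = u₁ ++ u₂ ∧ w = w₁ ++ w₂ ∧ u₁ ∈ st X ∧ u₂ ++ w₁ ∈ X ∧ w₂ ∈ st X := by
  rw [st_cut]
  constructor
  · rintro (⟨h1, h2⟩ | h)
    · exact ⟨u, [], [], w, by simp, by simp, h1, by simpa using h0, h2⟩
    · exact h
  · exact Or.inr

/-- The two sided quotients of `X*`. -/
theorem st_cut_mid {X : Set (List α)} (h0 : [] ∈ X) {u x v : List α} : u ++ x ++ v ∈ st X ↔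
    ∃ u₁ u₂ v₁ v₂, u = u₁ ++ u₂ ∧ v = v₁ ++ v₂ ∧ u₁ ∈ st X ∧ v₂ ∈ st X ∧
      (u₂ ++ x ++ v₁ ∈ X ∨ ∃ a b c, x = a ++ b ++ c ∧ u₂ ++ a ∈ X ∧ b ∈ st X ∧ c ++ v₁ ∈ X) := by
  constructor
  · intro h
    rw [List.append_assoc, st_cut' h0] at h
    obtain ⟨u₁, u₂, w₁, w₂, h1, h2, h3, h4, h5⟩ := h
    rcases List.append_eq_append_iff.1 h2 with ⟨v₁, e1, e2⟩ | ⟨x', e1, e2⟩
    · -- w₁ = x ++ v₁
      refine ⟨u₁, u₂, v₁, w₂, h1, e2, h3, h5, Or.inl ?_⟩
      rw [List.append_assoc, ← e1]
      exact h4
    · -- x = w₁ ++ x'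
      rw [e2, st_cut' h0] at h5
      obtain ⟨b, c, v₁, v₂, h6, h7, h8, h9, h10⟩ := h5
      refine ⟨u₁, u₂, v₁, v₂, h1, h7, h3, h10, Or.inr ⟨w₁, b, c, ?_, h4, h8, h9⟩⟩
      rw [e1, h6, List.append_assoc]
  · rintro ⟨u₁, u₂, v₁, v₂, rfl, rfl, h1, h2, h | ⟨a, b, c, rfl, h3, h4, h5⟩⟩
    · have := st_append h1 (st_append (st_one h) h2)
      simpa using this
    · have := st_append h1 (st_append (st_one h3) (st_append h4 (st_append (st_one h5) h2)))
      simpa using this

theorem exists_split (P : List α → List α → Prop) (u : List α) :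
    (∃ u₁ u₂, u = u₁ ++ u₂ ∧ P u₁ u₂) ↔ ∃ i : Fin (u.length + 1), P (u.take i) (u.drop i) := by
  constructor
  · rintro ⟨u₁, u₂, rfl, h⟩
    refine ⟨⟨u₁.length, by simp⟩, ?_⟩
    simpa using h
  · rintro ⟨i, h⟩
    exact ⟨_, _, (List.take_append_drop i u).symm, h⟩

/-- The inverse image of a two-sided quotient of `K*` under a letter map is a one-star
language. -/
theorem oneStar_quot {β : Type} [Finite β] {h : ℕ} {K' : Set (List α)} (hK : HS h K')
    (f : β → α) (u v : List α) :
    OneStar h {w : List β | w.map f ∈ K'} {x : List β | u ++ x.map f ++ v ∈ st K'} := by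
  set K : Set (List β) := {w : List β | w.map f ∈ K'} with hKd
  have h0 : ([] : List α) ∈ K' ∪ {[]} := Or.inr rfl
  have hX : HS h (K' ∪ {[]}) := hK.union (.eps h)
  have e : {x : List β | u ++ x.map f ++ v ∈ st K'} =
      ⋃ i : Fin (u.length + 1), ⋃ j : Fin (v.length + 1),
        {x | (u.take i ∈ st K' ∧ v.drop j ∈ st K') ∧ x ∈
          {x : List β | u.drop i ++ x.map f ++ v.take j ∈ K' ∪ {[]}} ∪
          cat (cat {a : List β | u.drop i ++ a.map f ∈ K' ∪ {[]}} (st K))
            {c : List β | c.map f ++ v.take j ∈ K' ∪ {[]}}} := by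
    ext x
    simp only [Set.mem_iUnion]
    show u ++ x.map f ++ v ∈ st K' ↔ _
    rw [← st_nil_union K', st_cut_mid h0]
    constructor
    · rintro ⟨u₁, u₂, v₁, v₂, h1, h2, h3, h4, h5⟩
      obtain ⟨i, hi⟩ := (exists_split (fun a b => a = u₁ ∧ b = u₂) u).1 ⟨u₁, u₂, h1, rfl, rfl⟩
      obtain ⟨j, hj⟩ := (exists_split (fun a b => a = v₁ ∧ b = v₂) v).1 ⟨v₁, v₂, h2, rfl, rfl⟩
      refine ⟨i, j, ⟨?_, ?_⟩, ?_⟩
      · rw [hi.1]; exact h3
      · rw [hj.2]; exact h4
      · rcases h5 with h5 | ⟨a, b, c, h6, h7, h8, h9⟩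
        · left
          show u.drop i ++ x.map f ++ v.take j ∈ K' ∪ {[]}
          rw [hi.2, hj.1]; exact h5
        · right
          obtain ⟨x₁, c, rfl, h10, rfl⟩ := List.map_eq_append_iff.1 h6
          obtain ⟨a, b, rfl, rfl, rfl⟩ := List.map_eq_append_iff.1 h10
          refine mem_cat.2 ⟨a ++ b, c, mem_cat.2 ⟨a, b, ?_, ?_, rfl⟩, ?_, rfl⟩
          · show u.drop i ++ a.map f ∈ K' ∪ {[]}
            rw [hi.2]; exact h7
          · rw [hKd, ← comap_st, ← st_nil_union K']
            exact h8
          · show c.map f ++ v.take j ∈ K' ∪ {[]}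
            rw [hj.1]; exact h9
    · rintro ⟨i, j, ⟨h3, h4⟩, h5⟩
      refine ⟨_, _, _, _, (List.take_append_drop i u).symm, (List.take_append_drop j v).symm,
        h3, h4, ?_⟩
      rcases h5 with h5 | h5
      · exact Or.inl h5
      · right
        obtain ⟨x₁, c, h6, h7, rfl⟩ := mem_cat.1 h5
        obtain ⟨a, b, h8, h9, rfl⟩ := mem_cat.1 h6
        rw [hKd, ← comap_st, ← st_nil_union K'] at h9
        exact ⟨a.map f, b.map f, c.map f, by simp, h8, h9, h7⟩
  rw [e]
  refine OneStar.iUnion _ fun i => OneStar.iUnion _ fun j => OneStar.cond _ ?_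
  refine OneStar.union (.base ?_) (.prod ?_ ?_)
  · have := HS.comap (β := β) (HS.rq (HS.lq hX (u.drop i)) (v.take j)) f
    convert this using 1
    ext x
    simp [rq, lq]
  · exact HS.comap (β := β) (HS.lq hX (u.drop i)) f
  · exact HS.comap (β := β) (HS.rq hX (v.take j)) f

section alt

/-- a set containing two copies of the group and five more points -/
abbrev Om (G : Type) : Type := (G ⊕ G) ⊕ Fin 5

open Equiv.Perm in
/-- the even action -/
noncomputable def emb (G : Type) [Group G] [Fintype G] [DecidableEq G] :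
    G →* alternatingGroup (Om G) where
  toFun g := ⟨sumCongr (sumCongr (MulAction.toPerm g) (MulAction.toPerm g)) 1, by
    rw [mem_alternatingGroup, sign_sumCongr, sign_sumCongr, Equiv.Perm.sign_one, mul_one]
    exact Int.units_mul_self _⟩
  map_one' := by
    apply Subtype.ext
    ext x
    rcases x with (x | x) | x <;> simp [sumCongr]
  map_mul' a b := by
    apply Subtype.ext
    ext x
    rcases x with (x | x) | x <;> simp [sumCongr, mul_assoc]

theorem emb_injective (G : Type) [Group G] [Fintype G] [DecidableEq G] :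
    Function.Injective (emb G) := by
  intro a b h
  have h1 := congrArg (fun s : alternatingGroup (Om G) => s.1 (Sum.inl (Sum.inl (1 : G)))) h
  simpa [emb, Equiv.Perm.sumCongr] using h1

end alt

/-- One starred language suffices for every finite group if all group languages have height at
most `h + 1`. -/
theorem oneStar_of_all (h : ℕ)
    (H : ∀ (G : Type) [Group G] [Finite G] (α : Type) [Finite α] (φ : α → G),
      HS (h + 1) {w : List α | (w.map φ).prod = 1})
    (G : Type) [Group G] [Finite G] (α : Type) [Finite α] (φ : α → G) :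
    ∃ K : Set (List α), HS h K ∧
      ∀ T : Set G, OneStar h K {w : List α | (w.map φ).prod ∈ T} := by
  classical
  have := Fintype.ofFinite G
  set S := alternatingGroup (Om G) with hS
  have hcard : 5 ≤ Nat.card (Om G) := by
    rw [Nat.card_eq_fintype_card, Fintype.card_sum, Fintype.card_fin]
    omega
  have hsimp : IsSimpleGroup S := alternatingGroup.isSimpleGroup hcard
  have hna : ¬ ∀ a b : S, a * b = b * a := by
    intro h1
    have h2 : IsMulCommutative S := isMulCommutative_iff.2 h1
    have h3 := alternatingGroup.isMulCommutative_iff_card_le_three.1 h2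
    omega
  let ψ : α ⊕ S → S := Sum.elim (fun a => emb G (φ a)) id
  have hψ : Function.Surjective (ev ψ) := by
    intro g
    refine ⟨FreeMonoid.of (Sum.inr g), ?_⟩
    rw [ev, FreeMonoid.lift_eval_of]
    rfl
  obtain ⟨KK, hKK, hJ⟩ := joint_le ψ (H S (α ⊕ S) ψ)
  obtain ⟨K', hK', hle⟩ := one_le hna ψ hψ KK hKK hJ
  have hK'h := hKK K' hK'
  refine ⟨{w : List α | w.map Sum.inl ∈ K'}, HS.comap hK'h _, fun T => ?_⟩
  have := finite_synCon (HS.finite_LQ hK'h.star)
  have hval : ∀ x : List α, ev ψ (FreeMonoid.ofList (x.map Sum.inl)) = emb G (x.map φ).prod := by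
    intro x
    rw [ev_apply, FreeMonoid.toList_ofList, List.map_map, map_list_prod, List.map_map]
    rfl
  refine saturated (OneStar h {w : List α | w.map Sum.inl ∈ K'}) (fun _ _ => .union)
    (fun _ => .compl) (.base (.empty h))
    (fun w : List α => ((FreeMonoid.ofList (w.map Sum.inl) : FreeMonoid (α ⊕ S)) :
      (synCon (st K')).Quotient)) ?_ _ ?_
  · intro a b hab
    have h1 : ¬ Syn (st K') (a.map Sum.inl) (b.map Sum.inl) := fun h2 =>
      hab ((synCon (st K')).eq.2 h2)
    unfold Syn at h1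
    push Not at h1
    obtain ⟨u, v, h3⟩ := h1
    have h4 := oneStar_quot hK'h (Sum.inl : α → α ⊕ S) u v
    have h5 : ∀ x y : List α,
        ((FreeMonoid.ofList (x.map Sum.inl) : FreeMonoid (α ⊕ S)) : (synCon (st K')).Quotient) =
        (FreeMonoid.ofList (y.map Sum.inl) : FreeMonoid (α ⊕ S)) →
        (u ++ x.map Sum.inl ++ v ∈ st K' ↔ u ++ y.map Sum.inl ++ v ∈ st K') := by
      intro x y hxy
      exact (synCon (st K')).eq.1 hxy u v
    rcases h3 with ⟨h6, h7⟩ | ⟨h6, h7⟩
    · exact ⟨_, h4, h6, h7, h5⟩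
    · exact ⟨_, h4.compl, h6, fun h => h h7, fun x y hxy => not_congr (h5 x y hxy)⟩
  · intro x y hxy
    have h1 := (Con.ker_rel _).1 (hle ((synCon (st K')).eq.1 hxy))
    rw [hval, hval] at h1
    have h2 := emb_injective G h1
    show (x.map φ).prod ∈ T ↔ (y.map φ).prod ∈ T
    rw [h2]

end Pool.Agent.H936R3.SH
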