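import Pool.Agent.H936R3.SH.Quot

/-!
Syntactic congruences of starred languages and iteration of factors.
-/

set_option autoImplicit false

namespace Pool.Agent.H936R3.SH

open Pool.Agent.H936R2.SH

variable {α : Type}

/-- `w` and `w'` are syntactically equivalent for the language `L`. -/
def Syn (L : Set (List α)) (w w' : List α) : Prop := ∀ u v : List α, u ++ w ++ v ∈ L ↔ u ++ w' ++ v ∈ L

/-- powers of a word -/
def pw (t : List α) : ℕ → List α
  | 0 => []
  | n + 1 => t ++ pw t n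

theorem pw_add (t : List α) (i j : ℕ) : pw t (i + j) = pw t i ++ pw t j := by
  induction i with
  | zero => simp [pw]
  | succ i ih => rw [Nat.succ_add]; simp [pw, ih]

theorem pw_nil (n : ℕ) : pw ([] : List α) n = [] := by
  induction n with
  | zero => rfl
  | succ n ih => simp [pw, ih]

theorem le_length_pw {t : List α} (ht : t ≠ []) (n : ℕ) : n ≤ (pw t n).length := by
  induction n with
  | zero => simp
  | succ n ih =>
    have := List.length_pos_iff.2 ht
    simp only [pw, List.length_append]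
    omega

theorem cut_pw {t u v y : List α} : ∀ {n : ℕ}, u ++ v = pw t n ++ y →
    (∃ y₁, u = pw t n ++ y₁ ∧ y = y₁ ++ v) ∨
    ∃ i j t₁ t₂, i + j + 1 = n ∧ t = t₁ ++ t₂ ∧ u = pw t i ++ t₁ ∧ v = t₂ ++ pw t j ++ y := by
  intro n
  induction n generalizing u with
  | zero =>
    intro h
    left
    exact ⟨u, by simp [pw], by simpa [pw] using h.symm⟩
  | succ n ih =>
    intro h
    have h' : u ++ v = t ++ (pw t n ++ y) := by rw [h]; simp [pw]
    rcases List.append_eq_append_iff.1 h' with ⟨t₂, ht, hv⟩ | ⟨u', hu', hv⟩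
    · right
      exact ⟨0, n, u, t₂, by omega, ht, by simp [pw], by rw [hv, List.append_assoc]⟩
    · rcases ih hv.symm with ⟨y₁, h1, h2⟩ | ⟨i, j, t₁, t₂, h1, h2, h3, h4⟩
      · left
        exact ⟨y₁, by rw [hu', h1]; simp [pw], h2⟩
      · right
        exact ⟨i + 1, j, t₁, t₂, by omega, h2, by rw [hu', h3]; simp [pw], h4⟩

/-- cutting `x tⁿ y` in two -/
theorem cut {x t u v y : List α} {n : ℕ} (h : u ++ v = x ++ pw t n ++ y) :
    (∃ x₂, x = u ++ x₂ ∧ v = x₂ ++ pw t n ++ y) ∨
    (∃ y₁, u = x ++ pw t n ++ y₁ ∧ y = y₁ ++ v) ∨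
    ∃ i j t₁ t₂, i + j + 1 = n ∧ t = t₁ ++ t₂ ∧ u = x ++ pw t i ++ t₁ ∧
      v = t₂ ++ pw t j ++ y := by
  rw [List.append_assoc] at h
  rcases List.append_eq_append_iff.1 h with ⟨x₂, hx, hv⟩ | ⟨u', hu', hv⟩
  · left
    exact ⟨x₂, hx, by rw [hv, List.append_assoc]⟩
  · right
    rcases cut_pw hv.symm with ⟨y₁, h1, h2⟩ | ⟨i, j, t₁, t₂, h1, h2, h3, h4⟩
    · left
      exact ⟨y₁, by rw [hu', h1, List.append_assoc], h2⟩
    · right
      exact ⟨i, j, t₁, t₂, h1, h2, by rw [hu', h3, List.append_assoc], h4⟩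

/-- the number of consecutive factors `t` does not matter beyond `N` -/
def Pumps (t : List α) (L : Set (List α)) (N : ℕ) : Prop :=
  ∀ n, N ≤ n → ∀ x y : List α, x ++ pw t n ++ y ∈ L ↔ x ++ pw t (n + 1) ++ y ∈ L

theorem pw_mid {t t₁ t₂ : List α} (h : t = t₁ ++ t₂) (x y : List α) (i j : ℕ) :
    x ++ pw t (i + j + 1) ++ y = (x ++ pw t i ++ t₁) ++ (t₂ ++ pw t j ++ y) := by
  have h1 : pw t (i + j + 1) = pw t i ++ (t₁ ++ t₂) ++ pw t j := by
    rw [add_assoc, pw_add, ← h, add_comm j 1, pw_add]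
    simp [pw]
  rw [h1]
  simp only [List.append_assoc]

theorem Pumps.cat {t : List α} {X Y : Set (List α)} {N M : ℕ} (hX : Pumps t X N)
    (hY : Pumps t Y M) : Pumps t (cat X Y) (N + M + 1) := by
  intro n hn x y
  constructor
  · rintro ⟨u, hu, v, hv, h⟩
    have h : u ++ v = x ++ pw t n ++ y := h
    rcases SH.cut h with ⟨x₂, rfl, h2⟩ | ⟨y₁, h1, rfl⟩ | ⟨i, j, t₁, t₂, h1, h2, h3, h4⟩
    · rw [h2] at hv
      have h3 := (hY n (by omega) _ _).1 hv
      exact mem_cat.2 ⟨u, _, hu, h3, by simp⟩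
    · rw [h1] at hu
      have h3 := (hX n (by omega) _ _).1 hu
      exact mem_cat.2 ⟨_, v, h3, hv, by simp⟩
    · by_cases hi : N ≤ i
      · rw [h3] at hu
        have h5 := (hX i hi _ _).1 hu
        refine mem_cat.2 ⟨_, v, h5, hv, ?_⟩
        rw [h4, show n + 1 = (i + 1) + j + 1 by omega, pw_mid h2]
      · rw [h4] at hv
        have h5 := (hY j (by omega) _ _).1 hv
        refine mem_cat.2 ⟨u, _, hu, h5, ?_⟩
        rw [h3, show n + 1 = i + (j + 1) + 1 by omega, pw_mid h2]
  · rintro ⟨u, hu, v, hv, h⟩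
    have h : u ++ v = x ++ pw t (n + 1) ++ y := h
    rcases SH.cut h with ⟨x₂, rfl, h2⟩ | ⟨y₁, h1, rfl⟩ | ⟨i, j, t₁, t₂, h1, h2, h3, h4⟩
    · rw [h2] at hv
      have h3 := (hY n (by omega) _ _).2 hv
      exact mem_cat.2 ⟨u, _, hu, h3, by simp⟩
    · rw [h1] at hu
      have h3 := (hX n (by omega) _ _).2 hu
      exact mem_cat.2 ⟨_, v, h3, hv, by simp⟩
    · by_cases hi : N + 1 ≤ i
      · obtain ⟨i, rfl⟩ : ∃ k, i = k + 1 := ⟨i - 1, by omega⟩
        rw [h3] at hu
        have h5 := (hX i (by omega) _ _).2 hu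
        refine mem_cat.2 ⟨_, v, h5, hv, ?_⟩
        rw [h4, show n = i + j + 1 by omega, pw_mid h2]
      · obtain ⟨j, rfl⟩ : ∃ k, j = k + 1 := ⟨j - 1, by omega⟩
        rw [h4] at hv
        have h5 := (hY j (by omega) _ _).2 hv
        refine mem_cat.2 ⟨u, _, hu, h5, ?_⟩
        rw [h3, show n = i + j + 1 by omega, pw_mid h2]

theorem Pumps.mono {t : List α} {X : Set (List α)} {N M : ℕ} (h : Pumps t X N) (hM : N ≤ M) :
    Pumps t X M := fun n hn => h n (hM.trans hn)

theorem pumps_finite {t : List α} {X : Set (List α)} (N : ℕ) (hX : ∀ w ∈ X, w.length < N) :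
    Pumps t X N := by
  intro n hn x y
  by_cases ht : t = []
  · subst ht
    rw [pw_nil, pw_nil]
  · constructor
    · intro h
      have h1 := hX _ h
      have h2 := le_length_pw ht n
      simp only [List.length_append] at h1
      omega
    · intro h
      have h1 := hX _ h
      have h2 := le_length_pw ht (n + 1)
      simp only [List.length_append] at h1
      omega

/-- Every language of height at most `h + 1` is insensitive to the number of iterations of a
factor `t` which is idempotent for the syntactic congruences of finitely many starred languages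
`K*`, `K` of height at most `h`. -/
theorem pump {n : ℕ} {L : Set (List α)} (hL : HS n L) : ∀ h, n = h + 1 →
    ∃ KK : List (Set (List α)), (∀ K ∈ KK, HS h K) ∧
      ∀ t : List α, (∀ K ∈ KK, Syn (st K) t (t ++ t)) → ∃ N, Pumps t L N := by
  induction hL with
  | empty n =>
    intro h _
    exact ⟨[], by simp, fun t _ => ⟨0, pumps_finite 0 (by simp)⟩⟩
  | eps n =>
    intro h _
    exact ⟨[], by simp, fun t _ => ⟨1, pumps_finite 1 (by simp)⟩⟩
  | letter n b =>
    intro h _
    exact ⟨[], by simp, fun t _ => ⟨2, pumps_finite 2 (by simp)⟩⟩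
  | @union n X Y _ _ h1 h2 =>
    intro h hn
    obtain ⟨K1, a1, b1⟩ := h1 h hn
    obtain ⟨K2, a2, b2⟩ := h2 h hn
    refine ⟨K1 ++ K2, ?_, ?_⟩
    · intro K hK
      rcases List.mem_append.1 hK with h | h
      · exact a1 K h
      · exact a2 K h
    · intro t ht
      obtain ⟨N1, c1⟩ := b1 t fun K hK => ht K (List.mem_append_left _ hK)
      obtain ⟨N2, c2⟩ := b2 t fun K hK => ht K (List.mem_append_right _ hK)
      refine ⟨max N1 N2, fun n hn x y => ?_⟩
      exact or_congr (c1 n ((le_max_left _ _).trans hn) x y)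
        (c2 n ((le_max_right _ _).trans hn) x y)
  | @cat n X Y _ _ h1 h2 =>
    intro h hn
    obtain ⟨K1, a1, b1⟩ := h1 h hn
    obtain ⟨K2, a2, b2⟩ := h2 h hn
    refine ⟨K1 ++ K2, ?_, ?_⟩
    · intro K hK
      rcases List.mem_append.1 hK with h | h
      · exact a1 K h
      · exact a2 K h
    · intro t ht
      obtain ⟨N1, c1⟩ := b1 t fun K hK => ht K (List.mem_append_left _ hK)
      obtain ⟨N2, c2⟩ := b2 t fun K hK => ht K (List.mem_append_right _ hK)
      exact ⟨_, c1.cat c2⟩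
  | @compl n X _ h1 =>
    intro h hn
    obtain ⟨K1, a1, b1⟩ := h1 h hn
    refine ⟨K1, a1, fun t ht => ?_⟩
    obtain ⟨N, c⟩ := b1 t ht
    exact ⟨N, fun n hn x y => not_congr (c n hn x y)⟩
  | @star n X hX _ =>
    intro h hn
    obtain rfl : n = h := by omega
    refine ⟨[X], by simpa using hX, fun t ht => ⟨1, ?_⟩⟩
    intro m hm x y
    obtain ⟨m, rfl⟩ : ∃ k, m = k + 1 := ⟨m - 1, by omega⟩
    have h1 := ht X (by simp) x (pw t m ++ y)
    simpa [pw] using h1

end Pool.Agent.H936R3.SH
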