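import Pool.Agent.H936R2.SH.Basic

/-!
Closure of the classes `HS n` under quotients, mirror images and inverse letter maps;
languages in `HS n` have finitely many left quotients.
-/

set_option autoImplicit false

namespace Pool.Agent.H936R3.SH

open Pool.Agent.H936R2.SH

variable {α : Type}

theorem mem_cat {X Y : Set (List α)} {w : List α} :
    w ∈ cat X Y ↔ ∃ u v, u ∈ X ∧ v ∈ Y ∧ w = u ++ v := by
  constructor
  · rintro ⟨u, hu, v, hv, rfl⟩
    exact ⟨u, v, hu, hv, rfl⟩
  · rintro ⟨u, v, hu, hv, rfl⟩
    exact ⟨u, hu, v, hv, rfl⟩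

theorem st_append {X : Set (List α)} {u v : List α} (hu : u ∈ st X) (hv : v ∈ st X) :
    u ++ v ∈ st X := by
  obtain ⟨l, hl, rfl⟩ := hu
  obtain ⟨m, hm, rfl⟩ := hv
  refine ⟨l ++ m, ?_, by simp⟩
  intro x hx
  rcases List.mem_append.1 hx with h | h
  · exact hl x h
  · exact hm x h

theorem st_one {X : Set (List α)} {x : List α} (hx : x ∈ X) : x ∈ st X :=
  ⟨[x], by simpa using hx, by simp⟩

theorem nil_st (X : Set (List α)) : ([] : List α) ∈ st X := ⟨[], by simp, rfl⟩

/-- Cutting a word of `st X` in two. -/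
theorem st_cut {X : Set (List α)} {u w : List α} : u ++ w ∈ st X ↔
    (u ∈ st X ∧ w ∈ st X) ∨ ∃ u₁ u₂ w₁ w₂, u = u₁ ++ u₂ ∧ w = w₁ ++ w₂ ∧ u₁ ∈ st X ∧
      u₂ ++ w₁ ∈ X ∧ w₂ ∈ st X := by
  constructor
  · rintro ⟨l, hl, h⟩
    induction l generalizing u with
    | nil =>
      left
      have h2 : u = [] ∧ w = [] := by simpa using h
      rw [h2.1, h2.2]
      exact ⟨nil_st X, nil_st X⟩
    | cons x l ih =>
      have hx : x ∈ X := hl x (by simp)
      have hl' : ∀ y ∈ l, y ∈ X := fun y hy => hl y (by simp [hy])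
      have h' : u ++ w = x ++ l.flatten := by simpa using h
      rcases List.append_eq_append_iff.1 h' with ⟨x', hx', hw⟩ | ⟨u', hu', hl2⟩
      · right
        refine ⟨[], u, x', l.flatten, rfl, hw, nil_st X, ?_, ⟨l, hl', rfl⟩⟩
        rw [← hx']
        exact hx
      · rcases ih hl' hl2.symm with ⟨h1, h2⟩ | ⟨u₁, u₂, w₁, w₂, h1, h2, h3, h4, h5⟩
        · left
          exact ⟨hu' ▸ st_append (st_one hx) h1, h2⟩
        · right
          exact ⟨x ++ u₁, u₂, w₁, w₂, by rw [hu', h1, List.append_assoc], h2,
            st_append (st_one hx) h3, h4, h5⟩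
  · rintro (⟨h1, h2⟩ | ⟨u₁, u₂, w₁, w₂, rfl, rfl, h3, h4, h5⟩)
    · exact st_append h1 h2
    · have := st_append h3 (st_append (st_one h4) h5)
      simpa using this

/-! ### Left quotients -/

/-- the left quotient by a word -/
def lq (u : List α) (X : Set (List α)) : Set (List α) := {w | u ++ w ∈ X}

theorem HS.lq1 {n : ℕ} {X : Set (List α)} (h : HS n X) (a : α) : HS n (lq [a] X) := by
  classical
  induction h with
  | empty n => exact .empty _
  | eps n =>
    have : lq [a] ({[]} : Set (List α)) = ∅ := by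
      ext w; simp [lq]
    rw [this]; exact .empty _
  | letter n b =>
    by_cases hab : a = b
    · have : lq [a] ({[b]} : Set (List α)) = {[]} := by
        ext w; simp [lq, hab]
      rw [this]; exact .eps _
    · have : lq [a] ({[b]} : Set (List α)) = ∅ := by
        ext w; simp [lq, hab]
      rw [this]; exact .empty _
  | union _ _ h1 h2 => exact h1.union h2
  | @cat n X Y hX hY h1 h2 =>
    have : lq [a] (cat X Y) = cat (lq [a] X) Y ∪ {w | w ∈ lq [a] Y ∧ [] ∈ X} := by
      ext w
      constructor
      · rintro ⟨u, hu, v, hv, h⟩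
        have h : u ++ v = a :: w := h
        rcases List.append_eq_cons_iff.1 h with ⟨rfl, h2⟩ | ⟨u', rfl, h2⟩
        · right
          refine ⟨?_, hu⟩
          show [a] ++ w ∈ Y
          rw [List.singleton_append, ← h2]; exact hv
        · left
          exact ⟨u', hu, v, hv, h2.symm⟩
      · rintro (⟨u, hu, v, hv, h⟩ | ⟨h1, h2⟩)
        · refine ⟨[a] ++ u, hu, v, hv, ?_⟩
          show [a] ++ u ++ v = [a] ++ w
          rw [← h]; simp
        · exact ⟨[], h2, [a] ++ w, h1, rfl⟩
    rw [this]
    refine (h1.cat hY).union ?_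
    by_cases hn : ([] : List α) ∈ X
    · simpa [hn] using h2
    · have : {w : List α | w ∈ lq [a] Y ∧ [] ∈ X} = ∅ := by
        ext w; simp [hn]
      rw [this]; exact .empty _
  | compl _ h1 => exact h1.compl
  | @star n X hX h1 =>
    have : lq [a] (st X) = Pool.Agent.H936R2.SH.cat (lq [a] X) (st X) := by
      ext w
      show [a] ++ w ∈ st X ↔ _
      constructor
      · rintro ⟨l, hl, h⟩
        induction l with
        | nil => simp at h
        | cons x l ih =>
          have hx : x ∈ X := hl x (by simp)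
          have hl' : ∀ y ∈ l, y ∈ X := fun y hy => hl y (by simp [hy])
          rcases x with _ | ⟨b, x⟩
          · exact ih hl' (by simpa using h)
          · have h' : a = b ∧ w = x ++ l.flatten := by simpa using h
            refine ⟨x, ?_, l.flatten, ⟨l, hl', rfl⟩, h'.2.symm⟩
            show [a] ++ x ∈ X
            rw [h'.1]; exact hx
      · rintro ⟨u, hu, v, hv, rfl⟩
        have h2 : [a] ++ u ∈ X := hu
        have := st_append (st_one h2) hv
        simpa using this
    rw [this]
    exact (h1.succ).cat hX.star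

theorem HS.lq {n : ℕ} {X : Set (List α)} (h : HS n X) (u : List α) : HS n (lq u X) := by
  induction u generalizing X with
  | nil => exact h
  | cons a u ih => exact ih (HS.lq1 h a)

/-! ### Mirror images -/

/-- the mirror image -/
def rev (X : Set (List α)) : Set (List α) := {w | w.reverse ∈ X}

theorem HS.rev {n : ℕ} {X : Set (List α)} (h : HS n X) : HS n (rev X) := by
  induction h with
  | empty n => exact .empty _
  | eps n =>
    have : SH.rev ({[]} : Set (List α)) = {[]} := by
      ext w; simp [SH.rev]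
    rw [this]; exact .eps _
  | letter n b =>
    have : SH.rev ({[b]} : Set (List α)) = {[b]} := by
      ext w; simp [SH.rev, List.reverse_eq_iff]
    rw [this]; exact .letter _ _
  | union _ _ h1 h2 => exact h1.union h2
  | @cat n X Y hX hY h1 h2 =>
    have : SH.rev (cat X Y) = cat (SH.rev Y) (SH.rev X) := by
      ext w
      constructor
      · rintro ⟨u, hu, v, hv, h⟩
        refine ⟨v.reverse, ?_, u.reverse, ?_, ?_⟩
        · show v.reverse.reverse ∈ Y
          rwa [List.reverse_reverse]
        · show u.reverse.reverse ∈ X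
          rwa [List.reverse_reverse]
        · have h : u ++ v = w.reverse := h
          show v.reverse ++ u.reverse = w
          rw [← List.reverse_append, h, List.reverse_reverse]
      · rintro ⟨u, hu, v, hv, rfl⟩
        exact ⟨v.reverse, hv, u.reverse, hu, by simp⟩
    rw [this]
    exact h2.cat h1
  | compl _ h1 => exact h1.compl
  | @star n X hX h1 =>
    have : SH.rev (st X) = st (SH.rev X) := by
      ext w
      constructor
      · rintro ⟨l, hl, h⟩
        refine ⟨(l.map List.reverse).reverse, ?_, ?_⟩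
        · intro x hx
          rw [List.mem_reverse, List.mem_map] at hx
          obtain ⟨y, hy, rfl⟩ := hx
          show y.reverse.reverse ∈ X
          rw [List.reverse_reverse]; exact hl y hy
        · have h : w.reverse = l.flatten := h
          rw [← List.reverse_flatten, ← h, List.reverse_reverse]
      · rintro ⟨l, hl, rfl⟩
        refine ⟨(l.map List.reverse).reverse, ?_, ?_⟩
        · intro x hx
          rw [List.mem_reverse, List.mem_map] at hx
          obtain ⟨y, hy, rfl⟩ := hx
          exact hl y hy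
        · rw [List.reverse_flatten]
    rw [this]
    exact h1.star

/-- the right quotient by a word -/
def rq (v : List α) (X : Set (List α)) : Set (List α) := {w | w ++ v ∈ X}

theorem HS.rq {n : ℕ} {X : Set (List α)} (h : HS n X) (v : List α) : HS n (rq v X) := by
  have h1 := HS.rev (HS.lq (HS.rev h) v.reverse)
  convert h1 using 1
  ext w
  simp [SH.rq, SH.rev, SH.lq]

/-! ### Inverse images under letter maps -/

theorem HS.comap {β : Type} [Finite β] {n : ℕ} {X : Set (List α)} (h : HS n X) (f : β → α) :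
    HS n {w : List β | w.map f ∈ X} := by
  classical
  induction h with
  | empty n => exact .empty _
  | eps n =>
    have : {w : List β | w.map f ∈ ({[]} : Set (List α))} = {[]} := by
      ext w; simp
    rw [this]; exact .eps _
  | letter n b =>
    have : {w : List β | w.map f ∈ ({[b]} : Set (List α))} =
        ⋃ c : {c : β // f c = b}, {[(c : β)]} := by
      ext w
      simp only [Set.mem_iUnion, Set.mem_singleton_iff, Set.mem_ofPred_eq]
      constructor
      · intro h
        obtain ⟨c, l, rfl, h1, h2⟩ := List.map_eq_cons_iff.1 h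
        rw [List.map_eq_nil_iff] at h2
        subst h2
        exact ⟨⟨c, h1⟩, rfl⟩
      · rintro ⟨c, rfl⟩
        simp [c.2]
    rw [this]
    exact HS.iUnion _ fun c => .letter _ _
  | union _ _ h1 h2 => exact h1.union h2
  | @cat n X Y hX hY h1 h2 =>
    have : {w : List β | w.map f ∈ cat X Y} =
        cat {w : List β | w.map f ∈ X} {w : List β | w.map f ∈ Y} := by
      ext w
      constructor
      · rintro ⟨u, hu, v, hv, h⟩
        have h : u ++ v = w.map f := h
        obtain ⟨w₁, w₂, rfl, rfl, rfl⟩ := List.map_eq_append_iff.1 h.symm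
        exact ⟨w₁, hu, w₂, hv, rfl⟩
      · rintro ⟨u, hu, v, hv, rfl⟩
        exact ⟨u.map f, hu, v.map f, hv, by simp⟩
    rw [this]
    exact h1.cat h2
  | compl _ h1 => exact h1.compl
  | @star n X hX h1 =>
    have : {w : List β | w.map f ∈ st X} = st {w : List β | w.map f ∈ X} := by
      ext w
      constructor
      · rintro ⟨l, hl, h⟩
        induction l generalizing w with
        | nil =>
          have : w = [] := by simpa using h
          rw [this]; exact nil_st _
        | cons x l ih =>
          have hx : x ∈ X := hl x (by simp)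
          have hl' : ∀ y ∈ l, y ∈ X := fun y hy => hl y (by simp [hy])
          have h : w.map f = x ++ l.flatten := by simpa using h
          obtain ⟨w₁, w₂, rfl, rfl, h3⟩ := List.map_eq_append_iff.1 h
          exact st_append (st_one hx) (ih w₂ hl' h3)
      · rintro ⟨l, hl, rfl⟩
        refine ⟨l.map (List.map f), ?_, by simp [List.map_flatten]⟩
        intro x hx
        obtain ⟨y, hy, rfl⟩ := List.mem_map.1 hx
        exact hl y hy
    rw [this]
    exact h1.star

/-! ### Finitely many left quotients -/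

/-- the set of all left quotients -/
def LQ (X : Set (List α)) : Set (Set (List α)) := Set.range fun u => lq u X

theorem HS.finite_LQ {n : ℕ} {X : Set (List α)} (h : HS n X) : (LQ X).Finite := by
  classical
  induction h with
  | empty n =>
    refine (Set.finite_singleton (∅ : Set (List α))).subset ?_
    rintro _ ⟨u, rfl⟩
    rfl
  | eps n =>
    refine (Set.toFinite ({{[]}, ∅} : Set (Set (List α)))).subset ?_
    rintro _ ⟨u, rfl⟩
    by_cases hu : u = []
    · left; subst hu; rfl
    · right
      show SH.lq u ({[]} : Set (List α)) = ∅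
      ext w; simp [SH.lq, hu]
  | letter n b =>
    refine (Set.toFinite ({{[b]}, {[]}, ∅} : Set (Set (List α)))).subset ?_
    rintro _ ⟨u, rfl⟩
    rcases u with _ | ⟨c, u⟩
    · left; rfl
    · by_cases h : c = b ∧ u = []
      · right; left
        obtain ⟨rfl, rfl⟩ := h
        ext w; simp [SH.lq]
      · right; right
        show SH.lq (c :: u) ({[b]} : Set (List α)) = ∅
        ext w
        simp only [SH.lq, Set.mem_ofPred_eq, Set.mem_singleton_iff, List.cons_append,
          List.cons.injEq, List.append_eq_nil_iff, Set.mem_empty_iff_false, iff_false]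
        tauto
  | @union n X Y _ _ h1 h2 =>
    refine (Set.Finite.image2 (fun A B => A ∪ B) h1 h2).subset ?_
    rintro _ ⟨u, rfl⟩
    exact ⟨_, ⟨u, rfl⟩, _, ⟨u, rfl⟩, rfl⟩
  | @cat n X Y hX hY h1 h2 =>
    refine (Set.Finite.image2 (fun A (S : Set (Set (List α))) => cat A Y ∪ ⋃₀ S) h1
      (Set.Finite.powerset h2)).subset ?_
    rintro _ ⟨u, rfl⟩
    refine ⟨_, ⟨u, rfl⟩, {B | ∃ u₁ u₂, u = u₁ ++ u₂ ∧ u₁ ∈ X ∧ B = SH.lq u₂ Y}, ?_, ?_⟩
    · rintro _ ⟨u₁, u₂, _, _, rfl⟩
      exact ⟨u₂, rfl⟩
    · ext w
      constructor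
      · rintro (⟨x, hx, y, hy, rfl⟩ | ⟨_, ⟨u₁, u₂, rfl, h3, rfl⟩, h4⟩)
        · exact ⟨u ++ x, hx, y, hy, by simp⟩
        · exact ⟨u₁, h3, u₂ ++ w, h4, by simp⟩
      · rintro ⟨x, hx, y, hy, h⟩
        have h : x ++ y = u ++ w := h
        rcases List.append_eq_append_iff.1 h with ⟨u', hu', hy'⟩ | ⟨x', hx', hw⟩
        · right
          exact ⟨_, ⟨x, u', hu', hx, rfl⟩, by show u' ++ w ∈ Y; rw [← hy']; exact hy⟩
        · left
          exact ⟨x', by show u ++ x' ∈ X; rw [← hx']; exact hx, y, hy, hw.symm⟩
  | @compl n X _ h1 =>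
    refine (h1.image fun A => Aᶜ).subset ?_
    rintro _ ⟨u, rfl⟩
    exact ⟨_, ⟨u, rfl⟩, rfl⟩
  | @star n X hX h1 =>
    refine (Set.Finite.image2 (fun (S : Set (Set (List α))) (B : Set (List α)) =>
      cat (⋃₀ S) (st X) ∪ B) (Set.Finite.powerset h1)
      (Set.toFinite ({∅, st X} : Set (Set (List α))))).subset ?_
    rintro _ ⟨u, rfl⟩
    refine ⟨{B | ∃ u₁ u₂, u = u₁ ++ u₂ ∧ u₁ ∈ st X ∧ B = SH.lq u₂ X}, ?_,
      {w | u ∈ st X ∧ w ∈ st X}, ?_, ?_⟩
    · rintro _ ⟨u₁, u₂, _, _, rfl⟩
      exact ⟨u₂, rfl⟩
    · by_cases hu : u ∈ st X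
      · right
        ext w; simp [hu]
      · left
        ext w; simp [hu]
    · ext w
      show _ ↔ u ++ w ∈ st X
      rw [st_cut]
      constructor
      · rintro (⟨x, ⟨_, ⟨u₁, u₂, rfl, h3, rfl⟩, h4⟩, y, hy, rfl⟩ | h)
        · exact Or.inr ⟨u₁, u₂, x, y, rfl, rfl, h3, h4, hy⟩
        · exact Or.inl h
      · rintro (h | ⟨u₁, u₂, w₁, w₂, rfl, rfl, h3, h4, h5⟩)
        · exact Or.inr h
        · left
          exact ⟨w₁, ⟨_, ⟨u₁, u₂, rfl, h3, rfl⟩, h4⟩, w₂, h5, rfl⟩

end Pool.Agent.H936R3.SH
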