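import Mathlib

/-!
A finite simple nonabelian quotient of a monoid which factors through a finite subdirect
product factors through one of the components.
-/

set_option autoImplicit false

namespace Pool.Agent.H936R3.SH

section mon
variable {M : Type*} [Monoid M]

theorem exists_idem_pow [Finite M] (m : M) : ∃ N : ℕ, 0 < N ∧ m ^ N * m ^ N = m ^ N := by
  obtain ⟨i, j, hij, he⟩ := Finite.exists_ne_map_eq_of_infinite (fun n : ℕ => m ^ n)
  wlog hlt : i < j generalizing i j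
  · exact this j i hij.symm he.symm (lt_of_le_of_ne (not_lt.1 hlt) hij.symm)
  have he : m ^ i = m ^ j := he
  obtain ⟨p, rfl⟩ : ∃ p, j = i + (p + 1) := ⟨j - i - 1, by omega⟩
  have h1 : ∀ n, i ≤ n → m ^ (n + (p + 1)) = m ^ n := by
    intro n hn
    obtain ⟨k, rfl⟩ : ∃ k, n = i + k := ⟨n - i, by omega⟩
    rw [show i + k + (p + 1) = (i + (p + 1)) + k by omega, pow_add, ← he, ← pow_add]
  have h2 : ∀ k n, i ≤ n → m ^ (n + k * (p + 1)) = m ^ n := by
    intro k
    induction k with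
    | zero => intro n _; simp
    | succ k ih =>
      intro n hn
      rw [show n + (k + 1) * (p + 1) = (n + k * (p + 1)) + (p + 1) by ring, h1 _ (by omega),
        ih n hn]
  refine ⟨(i + 1) * (p + 1), by positivity, ?_⟩
  rw [← pow_add]
  exact h2 _ _ (by nlinarith)

/-- A finite monoid has an idempotent whose local monoid is a group. -/
theorem exists_local_group [Finite M] : ∃ e : M, e * e = e ∧ ∀ g : M, e * g = g → g * e = g →
    ∃ g' : M, e * g' = g' ∧ g' * e = g' ∧ g * g' = e ∧ g' * g = e := by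
  classical
  let S : M → Set M := fun e => {m | e * m = m ∧ m * e = m}
  have hne : ∃ n : ℕ, ∃ e : M, e * e = e ∧ (S e).ncard = n := ⟨_, 1, one_mul 1, rfl⟩
  obtain ⟨e, he, hc⟩ := Nat.find_spec hne
  have hmin : ∀ f : M, f * f = f → (S e).ncard ≤ (S f).ncard := by
    intro f hf
    rw [hc]
    exact Nat.find_min' hne ⟨f, hf, rfl⟩
  refine ⟨e, he, fun g h1 h2 => ?_⟩
  obtain ⟨N, hN, hi⟩ := exists_idem_pow g
  obtain ⟨N, rfl⟩ : ∃ k, N = k + 1 := ⟨N - 1, by omega⟩
  set f := g ^ (N + 1) with hf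
  have h3 : e * f = f := by rw [hf, pow_succ', ← mul_assoc, h1]
  have h4 : f * e = f := by rw [hf, pow_succ, mul_assoc, h2]
  have hsub : S f ⊆ S e := by
    rintro m ⟨h5, h6⟩
    refine ⟨?_, ?_⟩
    · rw [← h5, ← mul_assoc, h3]
    · rw [← h6, mul_assoc, h4]
  have heq : S f = S e := Set.eq_of_subset_of_ncard_le hsub (hmin f hi) (Set.toFinite _)
  have h7 : e ∈ S f := by rw [heq]; exact ⟨he, he⟩
  have h8 : f = e := by rw [← h4]; exact h7.1
  have h9 : e * g ^ N * e = g ^ N * e := by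
    rw [← h8, hf]
    have : ∀ k, g ^ (N + 1) * g ^ k * g ^ (N + 1) = g ^ k * g ^ (N + 1) := by
      intro k
      rw [← pow_add, add_comm (N + 1) k, pow_add, mul_assoc, hi]
    exact this N
  refine ⟨g ^ N * e, by rw [← mul_assoc]; exact h9, by rw [mul_assoc, he], ?_, ?_⟩
  · rw [← mul_assoc, ← pow_succ', ← hf, h4, h8]
  · rw [mul_assoc, h1, ← pow_succ, ← hf, h8]

end mon

section con
variable {F S : Type*} [Monoid F] [Group S]

/-- the images in `S` of the elements congruent to elements over `1` -/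
def kerOf [Finite S] (φ : F →* S) (c : Con F) : Subgroup S where
  carrier := {s | ∃ x y, c x y ∧ φ x = 1 ∧ φ y = s}
  one_mem' := ⟨1, 1, c.refl 1, map_one φ, map_one φ⟩
  mul_mem' := by
    rintro a b ⟨x, y, h1, h2, h3⟩ ⟨x', y', h1', h2', h3'⟩
    exact ⟨x * x', y * y', c.mul h1 h1', by rw [map_mul, h2, h2', one_mul],
      by rw [map_mul, h3, h3']⟩
  inv_mem' := by
    rintro a ⟨x, y, h1, h2, h3⟩
    refine ⟨x ^ (orderOf a - 1), y ^ (orderOf a - 1), c.pow _ h1, by rw [map_pow, h2, one_pow],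
      ?_⟩
    rw [map_pow, h3]
    have h4 : 0 < orderOf a := orderOf_pos a
    apply eq_inv_of_mul_eq_one_left
    rw [← pow_succ, Nat.sub_add_cancel h4, pow_orderOf_eq_one]

theorem kerOf_normal [Finite S] (φ : F →* S) (hφ : Function.Surjective φ) (c : Con F) :
    (kerOf φ c).Normal := by
  constructor
  rintro a ⟨x, y, h1, h2, h3⟩ g
  obtain ⟨z, rfl⟩ := hφ g
  obtain ⟨z', hz'⟩ := hφ (φ z)⁻¹
  refine ⟨z * x * z', z * y * z', c.mul (c.mul (c.refl z) h1) (c.refl z'), ?_, ?_⟩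
  · rw [map_mul, map_mul, h2, hz', mul_one, mul_inv_cancel]
  · rw [map_mul, map_mul, h3, hz']

theorem kerOf_eq_top [Finite S] [IsSimpleGroup S] (φ : F →* S) (hφ : Function.Surjective φ)
    (c : Con F) (h : ¬ c ≤ Con.ker φ) (s : S) : ∃ x y, c x y ∧ φ x = 1 ∧ φ y = s := by
  have hn := kerOf_normal φ hφ c
  rcases IsSimpleGroup.eq_bot_or_eq_top_of_normal (kerOf φ c) hn with h1 | h1
  · exfalso
    apply h
    intro x y hxy
    rw [Con.ker_rel]
    obtain ⟨z, hz⟩ := hφ (φ x)⁻¹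
    have h2 : (φ x)⁻¹ * φ y ∈ kerOf φ c := by
      refine ⟨z * x, z * y, c.mul (c.refl z) hxy, ?_, ?_⟩
      · rw [map_mul, hz, inv_mul_cancel]
      · rw [map_mul, hz]
    rw [h1, Subgroup.mem_bot] at h2
    exact inv_mul_eq_one.1 h2
  · have : s ∈ kerOf φ c := by rw [h1]; trivial
    exact this

theorem two_con [Finite S] [IsSimpleGroup S] (hS : ¬ ∀ a b : S, a * b = b * a) (φ : F →* S)
    (hφ : Function.Surjective φ) (c₁ c₂ : Con F) [Finite (c₁ ⊓ c₂).Quotient]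
    (h : c₁ ⊓ c₂ ≤ Con.ker φ) : c₁ ≤ Con.ker φ ∨ c₂ ≤ Con.ker φ := by
  by_contra hcon
  rw [not_or] at hcon
  apply hS
  intro a b
  obtain ⟨x₀, x₀', hx, hx1, hx2⟩ := kerOf_eq_top φ hφ c₁ hcon.1 a
  obtain ⟨y₀, y₀', hy, hy1, hy2⟩ := kerOf_eq_top φ hφ c₂ hcon.2 b
  set c := c₁ ⊓ c₂ with hc
  have hc1 : ∀ {x y}, c x y → c₁ x y := fun h => h.1
  have hc2 : ∀ {x y}, c x y → c₂ x y := fun h => h.2
  obtain ⟨e, he, hinv⟩ := exists_local_group (M := c.Quotient)
  obtain ⟨z, rfl⟩ := Con.mk'_surjective e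
  have hz : c (z * z) z := c.eq.1 (by simpa using he)
  have hφz : φ z = 1 := by
    have h1 := (Con.ker_rel φ).1 (h hz)
    rw [map_mul] at h1
    exact mul_eq_left.1 h1
  -- local inverses
  have key : ∀ x : F, ∃ i : F, c (z * (z * x * z)) (z * x * z) ∧ c (z * x * z * z) (z * x * z) ∧
      c (z * i) i ∧ c (i * z) i ∧ c (z * x * z * i) z ∧ c (i * (z * x * z)) z := by
    intro x
    have h1 : c.mk' z * c.mk' (z * x * z) = c.mk' (z * x * z) := by
      simp only [map_mul]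
      rw [← mul_assoc, ← mul_assoc, he]
    have h2 : c.mk' (z * x * z) * c.mk' z = c.mk' (z * x * z) := by
      simp only [map_mul]
      rw [mul_assoc, he]
    obtain ⟨g', h3, h4, h5, h6⟩ := hinv _ h1 h2
    obtain ⟨i, rfl⟩ := Con.mk'_surjective g'
    exact ⟨i, c.eq.1 h1, c.eq.1 h2, c.eq.1 h3, c.eq.1 h4, c.eq.1 h5, c.eq.1 h6⟩
  obtain ⟨ix, -, -, a3, a4, a5, a6⟩ := key x₀
  obtain ⟨ix', b1, b2, b3, b4, b5, b6⟩ := key x₀'
  obtain ⟨iy, -, -, d3, d4, d5, d6⟩ := key y₀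
  obtain ⟨iy', e1, e2, e3, e4, e5, e6⟩ := key y₀'
  set x := z * x₀ * z with hxd
  set x' := z * x₀' * z with hxd'
  set y := z * y₀ * z with hyd
  set y' := z * y₀' * z with hyd'
  have hxx : c₁ x x' := c₁.mul (c₁.mul (c₁.refl z) hx) (c₁.refl z)
  have hyy : c₂ y y' := c₂.mul (c₂.mul (c₂.refl z) hy) (c₂.refl z)
  have fx : φ x = 1 := by rw [hxd, map_mul, map_mul, hφz, hx1, one_mul, one_mul]
  have fx' : φ x' = a := by rw [hxd', map_mul, map_mul, hφz, hx2, one_mul, mul_one]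
  have fy : φ y = 1 := by rw [hyd, map_mul, map_mul, hφz, hy1, one_mul, one_mul]
  have fy' : φ y' = b := by rw [hyd', map_mul, map_mul, hφz, hy2, one_mul, mul_one]
  have inv : ∀ u v : F, c (u * v) z → φ v = (φ u)⁻¹ := by
    intro u v huv
    have h1 := (Con.ker_rel φ).1 (h huv)
    rw [map_mul, hφz] at h1
    exact eq_inv_of_mul_eq_one_right h1
  have fix := inv _ _ a5
  have fix' := inv _ _ b5
  have fiy := inv _ _ d5
  have fiy' := inv _ _ e5
  -- the commutator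
  have g1 : c₁ ((ix * x') * (iy * y') * ((ix' * x) * (iy' * y))) z := by
    rw [← c₁.eq]
    have q1 : (x' : c₁.Quotient) = x := (c₁.eq.2 hxx).symm
    have q2 : (ix : c₁.Quotient) * x = z := c₁.eq.2 (hc1 a6)
    have q3 : (ix' : c₁.Quotient) * x = z := by rw [← q1]; exact c₁.eq.2 (hc1 b6)
    have q4 : (z : c₁.Quotient) * iy = iy := c₁.eq.2 (hc1 d3)
    have q5 : (z : c₁.Quotient) * iy' = iy' := c₁.eq.2 (hc1 e3)
    have q6 : (y' : c₁.Quotient) * iy' = z := c₁.eq.2 (hc1 e5)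
    have q7 : (iy : c₁.Quotient) * z = iy := c₁.eq.2 (hc1 d4)
    have q8 : (iy : c₁.Quotient) * y = z := c₁.eq.2 (hc1 d6)
    simp only [Con.coe_mul]
    rw [q1, q2, q3, ← mul_assoc (z : c₁.Quotient) iy', q5, ← mul_assoc (z : c₁.Quotient) iy, q4,
      mul_assoc, ← mul_assoc (y' : c₁.Quotient), q6, ← mul_assoc, q7, q8]
  have g2 : c₂ ((ix * x') * (iy * y') * ((ix' * x) * (iy' * y))) z := by
    rw [← c₂.eq]
    have q1 : (y' : c₂.Quotient) = y := (c₂.eq.2 hyy).symm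
    have q2 : (iy : c₂.Quotient) * y = z := c₂.eq.2 (hc2 d6)
    have q3 : (iy' : c₂.Quotient) * y = z := by rw [← q1]; exact c₂.eq.2 (hc2 e6)
    have q4 : (x' : c₂.Quotient) * z = x' := c₂.eq.2 (hc2 b2)
    have q5 : (x' : c₂.Quotient) * ix' = z := c₂.eq.2 (hc2 b5)
    have q6 : (ix : c₂.Quotient) * z = ix := c₂.eq.2 (hc2 a4)
    have q7 : (ix : c₂.Quotient) * x = z := c₂.eq.2 (hc2 a6)
    have q8 : (z : c₂.Quotient) * z = z := c₂.eq.2 (hc2 hz)
    simp only [Con.coe_mul]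
    rw [q1, q2, q3]
    calc (ix : c₂.Quotient) * x' * z * (ix' * x * z) = ix * (x' * z) * (ix' * x * z) := by
          rw [mul_assoc (ix : c₂.Quotient) x' z]
      _ = ix * (x' * ix') * x * z := by rw [q4]; simp only [mul_assoc]
      _ = z := by rw [q5, q6, q7, q8]
  have h1 := (Con.ker_rel φ).1 (h (show c _ _ from ⟨g1, g2⟩))
  simp only [map_mul, fx, fx', fy, fy', fix, fix', fiy, fiy', hφz, inv_one, one_mul,
    mul_one] at h1
  rw [← mul_assoc, mul_inv_eq_one, mul_inv_eq_iff_eq_mul] at h1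
  exact h1

end con

end Pool.Agent.H936R3.SH
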