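import Pool.Agent.H936R3.SH.Pump
import Pool.Agent.H936R3.SH.TwoCon

/-!
Languages of finite groups: concatenation is not needed outside the starred languages, and for
finite simple nonabelian groups one starred language is enough.
-/

set_option autoImplicit false

namespace Pool.Agent.H936R3.SH

open Pool.Agent.H936R2.SH

variable {α : Type}

/-- the syntactic congruence -/
def synCon (L : Set (List α)) : Con (FreeMonoid α) where
  r w w' := Syn L (FreeMonoid.toList w) (FreeMonoid.toList w')
  iseqv := ⟨fun _ _ _ => Iff.rfl, fun h u v => (h u v).symm,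
    fun h1 h2 u v => (h1 u v).trans (h2 u v)⟩
  mul' := by
    intro a b c d h1 h2 u v
    have h3 := h1 u (FreeMonoid.toList c ++ v)
    have h4 := h2 (u ++ FreeMonoid.toList b) v
    simp only [FreeMonoid.toList_mul, List.append_assoc] at h3 h4 ⊢
    exact h3.trans h4

theorem synCon_rel (L : Set (List α)) (w w' : FreeMonoid α) :
    synCon L w w' ↔ Syn L (FreeMonoid.toList w) (FreeMonoid.toList w') := Iff.rfl

theorem lq_lq (u w : List α) (X : Set (List α)) : lq w (lq u X) = lq (u ++ w) X := by
  ext v
  simp [lq]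

theorem finite_synCon {X : Set (List α)} (h : (LQ X).Finite) : Finite (synCon X).Quotient := by
  have := h.to_subtype
  let g : FreeMonoid α → (LQ X → LQ X) := fun w Y => ⟨lq (FreeMonoid.toList w) Y.1, by
    obtain ⟨u, hu⟩ := Y.2
    exact ⟨u ++ FreeMonoid.toList w, by show lq _ X = _; rw [← lq_lq, ← hu]⟩⟩
  have hg : ∀ a b, synCon X a b → g a = g b := by
    intro a b hab
    funext Y
    apply Subtype.ext
    obtain ⟨u, hu⟩ := Y.2
    ext v
    show FreeMonoid.toList a ++ v ∈ Y.1 ↔ FreeMonoid.toList b ++ v ∈ Y.1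
    rw [← hu]
    have := hab u v
    simpa [lq] using this
  refine Finite.of_injective (fun q : (synCon X).Quotient => Con.liftOn q g hg) ?_
  intro p q
  induction p using Con.induction_on with
  | _ a =>
    induction q using Con.induction_on with
    | _ b =>
      intro h
      have h : g a = g b := h
      apply (synCon X).eq.2
      intro u v
      have h1 := congrArg Subtype.val (congrFun h ⟨lq u X, ⟨u, rfl⟩⟩)
      have h2 : v ∈ lq (FreeMonoid.toList a) (lq u X) ↔ v ∈ lq (FreeMonoid.toList b) (lq u X) := by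
        have h1 : lq (FreeMonoid.toList a) (lq u X) = lq (FreeMonoid.toList b) (lq u X) := h1
        rw [h1]
      simpa [lq] using h2

theorem finite_inf {F : Type*} [Monoid F] (c d : Con F) [Finite c.Quotient] [Finite d.Quotient] :
    Finite (c ⊓ d).Quotient := by
  let g : F → c.Quotient × d.Quotient := fun w => (w, w)
  have hg : ∀ a b, (c ⊓ d) a b → g a = g b := fun a b hab =>
    Prod.ext (c.eq.2 hab.1) (d.eq.2 hab.2)
  refine Finite.of_injective (fun q : (c ⊓ d).Quotient => Con.liftOn q g hg) ?_
  intro p q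
  induction p using Con.induction_on with
  | _ a =>
    induction q using Con.induction_on with
    | _ b =>
      intro h
      have h : g a = g b := h
      apply (c ⊓ d).eq.2
      exact ⟨c.eq.1 (congrArg Prod.fst h), d.eq.1 (congrArg Prod.snd h)⟩

/-- the joint syntactic congruence of the starred languages `K*`, `K` in a list -/
def joint : List (Set (List α)) → Con (FreeMonoid α)
  | [] => ⊤
  | K :: KK => synCon (st K) ⊓ joint KK

theorem joint_nil (w w' : FreeMonoid α) : joint [] w w' := trivial

theorem joint_rel (KK : List (Set (List α))) (w w' : FreeMonoid α) : joint KK w w' ↔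
    ∀ K ∈ KK, Syn (st K) (FreeMonoid.toList w) (FreeMonoid.toList w') := by
  induction KK with
  | nil => exact ⟨fun _ K hK => absurd hK (List.not_mem_nil), fun _ => joint_nil w w'⟩
  | cons K KK ih =>
    rw [List.forall_mem_cons, ← ih]
    exact Iff.rfl

theorem finite_joint {h : ℕ} (KK : List (Set (List α))) (hK : ∀ K ∈ KK, HS h K) :
    Finite (joint KK).Quotient := by
  induction KK with
  | nil =>
    have : Subsingleton (joint ([] : List (Set (List α)))).Quotient := by
      constructor
      intro p q
      induction p using Con.induction_on with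
      | _ a =>
        induction q using Con.induction_on with
        | _ b => exact (Con.eq _).2 (joint_nil a b)
    infer_instance
  | cons K KK ih =>
    have := ih fun K hK' => hK K (List.mem_cons_of_mem _ hK')
    have := finite_synCon (HS.finite_LQ (hK K List.mem_cons_self).star)
    exact finite_inf _ _

/-- the morphism of a letter assignment -/
def ev {G : Type} [Group G] (φ : α → G) : FreeMonoid α →* G := FreeMonoid.lift φ

theorem ev_apply {G : Type} [Group G] (φ : α → G) (w : FreeMonoid α) :
    ev φ w = ((FreeMonoid.toList w).map φ).prod := by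
  rw [ev, FreeMonoid.lift_apply]

theorem toList_pow' (t : FreeMonoid α) (n : ℕ) :
    FreeMonoid.toList (t ^ n) = pw (FreeMonoid.toList t) n := by
  induction n with
  | zero => rfl
  | succ n ih => rw [pow_succ', FreeMonoid.toList_mul, ih]; rfl

/-- The main lemma: the starred languages occurring in an expression of a group language
already determine the value in the group. -/
theorem joint_le {G : Type} [Group G] [Finite G] (φ : α → G) {h : ℕ}
    (hL : HS (h + 1) {w : List α | (w.map φ).prod = 1}) :
    ∃ KK : List (Set (List α)), (∀ K ∈ KK, HS h K) ∧ joint KK ≤ Con.ker (ev φ) := by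
  obtain ⟨KK, hK, hp⟩ := pump hL h rfl
  refine ⟨KK, hK, ?_⟩
  have := finite_joint KK hK
  intro w w' hw
  rw [Con.ker_rel]
  -- a word over 1 and a word over the quotient
  set s := (ev φ w)⁻¹ * ev φ w' with hs
  set v := w ^ (orderOf (ev φ w) - 1) with hv
  have h0 : ev φ v = (ev φ w)⁻¹ := by
    rw [hv, map_pow]
    apply eq_inv_of_mul_eq_one_left
    rw [← pow_succ, Nat.sub_add_cancel (orderOf_pos _), pow_orderOf_eq_one]
  have h1 : ev φ (v * w) = 1 := by rw [map_mul, h0, inv_mul_cancel]
  have h2 : ev φ (v * w') = s := by rw [map_mul, h0]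
  obtain ⟨N, hN, hi⟩ := exists_idem_pow (((v * w : FreeMonoid α) : (joint KK).Quotient))
  obtain ⟨N, rfl⟩ : ∃ k, N = k + 1 := ⟨N - 1, by omega⟩
  set t : FreeMonoid α := (v * w) ^ N * (v * w') with ht
  have e1 : ((v * w' : FreeMonoid α) : (joint KK).Quotient) = ((v * w : FreeMonoid α)) :=
    ((joint KK).eq.2 ((joint KK).mul ((joint KK).refl v) hw)).symm
  have e2 : (t : (joint KK).Quotient) = ((v * w : FreeMonoid α) : (joint KK).Quotient) ^ (N + 1) := by
    have e0 : (t : (joint KK).Quotient) =
        ((v * w : FreeMonoid α) : (joint KK).Quotient) ^ N * ((v * w' : FreeMonoid α)) := by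
      rw [ht, Con.coe_mul]
      congr 1
    rw [e0, e1, pow_succ]
  have e3 : joint KK t (t * t) := by
    have e4 : ((t * t : FreeMonoid α) : (joint KK).Quotient) = t := by
      rw [Con.coe_mul, e2, hi]
    exact (joint KK).eq.1 e4.symm
  have h3 : ev φ t = s := by rw [ht, map_mul, map_pow, h1, one_pow, one_mul, h2]
  obtain ⟨B, hB⟩ := hp (FreeMonoid.toList t) (fun K hK' => by
    have := (joint_rel KK _ _).1 e3 K hK'
    rwa [FreeMonoid.toList_mul] at this)
  have ho := orderOf_pos s
  have h4 := hB (B * orderOf s) (Nat.le_mul_of_pos_right _ ho) [] []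
  simp only [List.nil_append, List.append_nil, Set.mem_ofPred_eq, ← toList_pow', ← ev_apply,
    map_pow, h3] at h4
  have h5 : s ^ (B * orderOf s) = 1 := by rw [mul_comm, pow_mul, pow_orderOf_eq_one, one_pow]
  rw [pow_succ, h5, one_mul] at h4
  have h6 : s = 1 := h4.1 rfl
  rw [hs] at h6
  exact (inv_mul_eq_one.1 h6)

/-- a nonabelian finite simple quotient needs only one of the languages -/
theorem one_le {G : Type} [Group G] [Finite G] [IsSimpleGroup G]
    (hG : ¬ ∀ a b : G, a * b = b * a) (φ : α → G) (hφ : Function.Surjective (ev φ)) {h : ℕ}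
    (KK : List (Set (List α))) (hK : ∀ K ∈ KK, HS h K) (hJ : joint KK ≤ Con.ker (ev φ)) :
    ∃ K ∈ KK, synCon (st K) ≤ Con.ker (ev φ) := by
  induction KK with
  | nil =>
    exfalso
    apply hG
    intro a b
    obtain ⟨x, rfl⟩ := hφ a
    obtain ⟨y, rfl⟩ := hφ b
    have h1 := (Con.ker_rel _).1 (hJ (joint_nil (x * y) (y * x)))
    rwa [map_mul, map_mul] at h1
  | cons K KK ih =>
    have hK' : ∀ K ∈ KK, HS h K := fun L hL => hK L (List.mem_cons_of_mem _ hL)
    have := finite_joint KK hK'
    have := finite_synCon (HS.finite_LQ (hK K List.mem_cons_self).star)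
    have := finite_inf (synCon (st K)) (joint KK)
    rcases two_con hG (ev φ) hφ (synCon (st K)) (joint KK) hJ with h1 | h1
    · exact ⟨K, List.mem_cons_self, h1⟩
    · obtain ⟨L, hL, h2⟩ := ih hK' h1
      exact ⟨L, List.mem_cons_of_mem _ hL, h2⟩

/-! ### Separation -/

/-- A class of languages which separates the classes of a finite equivalence relation contains
all its saturated languages. -/
theorem saturated {A : Type*} (P : Set A → Prop) (hu : ∀ X Y, P X → P Y → P (X ∪ Y))
    (hc : ∀ X, P X → P Xᶜ) (h0 : P ∅) {Q : Type*} [Finite Q] (f : A → Q)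
    (hsep : ∀ a b, f a ≠ f b → ∃ D, P D ∧ a ∈ D ∧ b ∉ D ∧ ∀ x y, f x = f y → (x ∈ D ↔ y ∈ D))
    (Z : Set A) (hZ : ∀ x y, f x = f y → (x ∈ Z ↔ y ∈ Z)) : P Z := by
  classical
  have hU : ∀ (s : Finset Q) (F : Q → Set A), (∀ q ∈ s, P (F q)) → P (⋃ q ∈ s, F q) := by
    intro s F
    induction s using Finset.induction_on with
    | empty => intro _; simpa using h0
    | insert a s ha ih =>
      intro h
      rw [Finset.set_biUnion_insert]
      exact hu _ _ (h a (Finset.mem_insert_self _ _))
        (ih fun i hi => h i (Finset.mem_insert_of_mem hi))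
  have hU' : ∀ F : Q → Set A, (∀ q, P (F q)) → P (⋃ q, F q) := by
    intro F hF
    have := Fintype.ofFinite Q
    have h1 := hU Finset.univ F fun q _ => hF q
    simpa using h1
  have hI : ∀ F : Q → Set A, (∀ q, P (F q)) → P (⋂ q, F q) := by
    intro F hF
    have h1 := hc _ (hU' (fun q => (F q)ᶜ) fun q => hc _ (hF q))
    simpa [Set.compl_iUnion] using h1
  have h1 : P Set.univ := by simpa using hc _ h0
  -- separating languages
  have hD : ∀ q r : Q, ∃ D : Set A, P D ∧ (∀ x y, f x = f y → (x ∈ D ↔ y ∈ D)) ∧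
      (∀ a, f a = q → a ∈ D) ∧ ∀ a b, f a = q → f b = r → q ≠ r → b ∉ D := by
    intro q r
    by_cases hqr : ∃ a b, f a = q ∧ f b = r ∧ q ≠ r
    · obtain ⟨a, b, ha, hb, hne⟩ := hqr
      obtain ⟨D, hD1, hD2, hD3, hD4⟩ := hsep a b (by rw [ha, hb]; exact hne)
      refine ⟨D, hD1, hD4, fun x hx => (hD4 x a (hx.trans ha.symm)).2 hD2, ?_⟩
      intro x y _ hy _ hyD
      exact hD3 ((hD4 y b (hy.trans hb.symm)).1 hyD)
    · refine ⟨Set.univ, h1, fun _ _ _ => Iff.rfl, fun _ _ => trivial, ?_⟩
      intro a b ha hb hne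
      exact absurd ⟨a, b, ha, hb, hne⟩ hqr
  choose D hD1 hD2 hD3 hD4 using hD
  have e : Z = ⋃ q, if (∃ z ∈ Z, f z = q) then ⋂ r, D q r else ∅ := by
    ext w
    rw [Set.mem_iUnion]
    constructor
    · intro hw
      refine ⟨f w, ?_⟩
      rw [if_pos ⟨w, hw, rfl⟩]
      exact Set.mem_iInter.2 fun r => hD3 _ _ w rfl
    · rintro ⟨q, hq⟩
      by_cases hz : ∃ z ∈ Z, f z = q
      · rw [if_pos hz, Set.mem_iInter] at hq
        obtain ⟨z, hz, hzq⟩ := hz
        by_cases hw : q = f w
        · exact (hZ w z (by rw [hzq, hw])).2 hz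
        · exact absurd (hq (f w)) (hD4 q (f w) z w hzq rfl hw)
      · rw [if_neg hz] at hq
        exact hq.elim
  rw [e]
  apply hU'
  intro q
  split_ifs
  · exact hI _ fun r => hD1 q r
  · exact h0

/-- If finitely many starred languages determine the value in the group then all languages of
the group have height at most `h + 1`. -/
theorem height_of_joint {G : Type} [Group G] (φ : α → G) {h : ℕ}
    (KK : List (Set (List α))) (hK : ∀ K ∈ KK, HS h K) (hJ : joint KK ≤ Con.ker (ev φ))
    (T : Set G) : HS (h + 1) {w : List α | (w.map φ).prod ∈ T} := by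
  have := finite_joint KK hK
  refine saturated (HS (h + 1)) (fun _ _ => .union) (fun _ => .compl) (.empty _)
    (fun w : List α => ((FreeMonoid.ofList w : FreeMonoid α) : (joint KK).Quotient)) ?_ _ ?_
  · intro a b hab
    have h1 : ¬ joint KK (FreeMonoid.ofList a) (FreeMonoid.ofList b) := fun h2 =>
      hab ((joint KK).eq.2 h2)
    rw [joint_rel] at h1
    push Not at h1
    obtain ⟨K, hKK, h2⟩ := h1
    unfold Syn at h2
    push Not at h2
    obtain ⟨u, v, h3⟩ := h2
    have h4 : HS (h + 1) {x : List α | u ++ x ++ v ∈ st K} := by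
      have := HS.rq (HS.lq (hK K hKK).star u) v
      convert this using 1
      ext x
      simp [rq, lq]
    have h5 : ∀ x y : List α, ((FreeMonoid.ofList x : FreeMonoid α) : (joint KK).Quotient) =
        (FreeMonoid.ofList y : FreeMonoid α) → (u ++ x ++ v ∈ st K ↔ u ++ y ++ v ∈ st K) := by
      intro x y hxy
      exact (joint_rel KK _ _).1 ((joint KK).eq.1 hxy) K hKK u v
    rcases h3 with ⟨h6, h7⟩ | ⟨h6, h7⟩
    · exact ⟨_, h4, h6, h7, h5⟩
    · exact ⟨_, h4.compl, h6, fun h => h h7, fun x y hxy => not_congr (h5 x y hxy)⟩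
  · intro x y hxy
    have h1 := (Con.ker_rel _).1 (hJ ((joint KK).eq.1 hxy))
    rw [ev_apply, ev_apply, FreeMonoid.toList_ofList, FreeMonoid.toList_ofList] at h1
    show (x.map φ).prod ∈ T ↔ (y.map φ).prod ∈ T
    rw [h1]

end Pool.Agent.H936R3.SH
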